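import Mathlib
import Pool.Agent.Helper49.NF.Goals

/-!
# Packet NF-ORBK
-/

set_option autoImplicit false

namespace Pool.Agent.Helper69.NF

open Finset
open Pool.Agent.Helper47.SR (Grp mv lev wt Ew W IsInv up dn StarAt HalfStarAt)
open Pool.Agent.Helper49.NF

variable {n : ℕ}

open Classical in
/-- the orbit of `x` -/
noncomputable def orb (H : Grp n) (x : Fin n) : Finset (Fin n) := (els H).image (fun γ => γ x)

theorem mem_els (H : Grp n) (γ : Equiv.Perm (Fin n)) : γ ∈ els H ↔ γ ∈ H := by
  unfold els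
  simp

theorem mem_orb (H : Grp n) (x y : Fin n) : y ∈ orb H x ↔ ∃ γ ∈ H, γ x = y := by
  unfold orb
  simp [mem_els]

theorem self_mem_orb (H : Grp n) (x : Fin n) : x ∈ orb H x :=
  (mem_orb H x x).2 ⟨1, H.one_mem, rfl⟩

theorem orb_eq (H : Grp n) (x y : Fin n) (h : y ∈ orb H x) : orb H y = orb H x := by
  obtain ⟨g, hg, rfl⟩ := (mem_orb H x y).1 h
  ext z
  rw [mem_orb, mem_orb]
  constructor
  · rintro ⟨k, hk, rfl⟩
    exact ⟨k * g, H.mul_mem hk hg, rfl⟩
  · rintro ⟨k, hk, rfl⟩
    refine ⟨k * g⁻¹, H.mul_mem hk (H.inv_mem hg), ?_⟩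
    simp

theorem card_els (H : Grp n) : #(els H) = Nat.card H := by
  classical
  unfold els
  rw [Nat.card_eq_fintype_card, Fintype.card_subtype]

theorem card_le (H : Grp n) (K : ℕ) (hK : ∀ x, stc H x ≤ K) (x : Fin n) :
    Nat.card H ≤ K * #(orb H x) := by
  classical
  rw [← card_els]
  have h1 : #(els H) = ∑ y ∈ orb H x, #((els H).filter (fun γ => γ x = y)) := by
    apply Finset.card_eq_sum_card_fiberwise
    intro γ hγ
    exact Finset.mem_coe.2 (Finset.mem_image_of_mem _ hγ)
  rw [h1]
  have h2 : ∀ y ∈ orb H x, #((els H).filter (fun γ => γ x = y)) ≤ K := by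
    intro y hy
    obtain ⟨g, hg, hgy⟩ := (mem_orb H x y).1 hy
    refine le_trans ?_ (hK x)
    unfold stc
    apply Finset.card_le_card_of_injOn (fun γ => g⁻¹ * γ)
    · intro γ hγ
      simp only [Finset.coe_filter, Set.mem_ofPred_eq, mem_els] at hγ ⊢
      refine ⟨H.mul_mem (H.inv_mem hg) hγ.1, ?_⟩
      rw [Equiv.Perm.mul_apply, hγ.2, ← hgy]
      simp
    · intro a _ b _ hab
      exact mul_left_cancel hab
  calc ∑ y ∈ orb H x, #((els H).filter (fun γ => γ x = y)) ≤ ∑ _y ∈ orb H x, K :=
        Finset.sum_le_sum h2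
    _ = K * #(orb H x) := by rw [Finset.sum_const, smul_eq_mul, mul_comm]

/-- the representative -/
noncomputable def rep (H : Grp n) (x : Fin n) : Fin n :=
  (orb H x).min' ⟨x, self_mem_orb H x⟩

theorem rep_mem (H : Grp n) (x : Fin n) : rep H x ∈ orb H x := Finset.min'_mem _ _

theorem rep_eq (H : Grp n) (x y : Fin n) (h : orb H x = orb H y) : rep H x = rep H y := by
  unfold rep
  congr 1

theorem small_sets (r : ℕ) : #((univ : Finset (Finset (Fin n))).filter (fun R => #R ≤ r)) ≤
    (n + 1) ^ r := by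
  classical
  have h1 : (univ : Finset (Finset (Fin n))).filter (fun R => #R ≤ r) ⊆
      (univ : Finset (Fin r → Option (Fin n))).image
        (fun f => (univ : Finset (Fin n)).filter (fun x => ∃ i, f i = some x)) := by
    intro R hR
    rw [mem_filter] at hR
    have hR2 := hR.2
    rw [mem_image]
    refine ⟨fun i => if h : (i : ℕ) < #R then some (R.equivFin.symm ⟨i, h⟩ : Fin n) else none,
      mem_univ _, ?_⟩
    ext x
    simp only [mem_filter, mem_univ, true_and]
    constructor
    · rintro ⟨i, hi⟩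
      split_ifs at hi with h
      rw [Option.some.injEq] at hi
      rw [← hi]
      exact (R.equivFin.symm ⟨i, h⟩).2
    · intro hx
      refine ⟨⟨(R.equivFin ⟨x, hx⟩ : ℕ), by have := (R.equivFin ⟨x, hx⟩).2; omega⟩, ?_⟩
      rw [dif_pos (R.equivFin ⟨x, hx⟩).2]
      simp
  calc _ ≤ _ := Finset.card_le_card h1
    _ ≤ #(univ : Finset (Fin r → Option (Fin n))) := Finset.card_image_le
    _ = (n + 1) ^ r := by simp

theorem goal_ORBK : Goal_ORBK := by
  classical
  intro n K s j H hK hs1 hs
  refine le_trans ?_ (small_sets (n := n) (K * j / s))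
  unfold inv
  apply Finset.card_le_card_of_injOn (fun A => A.image (rep H))
  · intro A hA
    simp only [Finset.coe_filter, Set.mem_ofPred_eq, mem_powersetCard, mem_univ, true_and] at hA ⊢
    obtain ⟨⟨_, hcard⟩, hinv⟩ := hA
    have hsub : ∀ x ∈ A, orb H x ⊆ A := by
      intro x hx y hy
      obtain ⟨g, hg, rfl⟩ := (mem_orb H x y).1 hy
      have := hinv g hg
      rw [← this]
      simp [hx]
    rw [Nat.le_div_iff_mul_le (by omega)]
    have h1 : #A = ∑ z ∈ A.image (rep H), #(A.filter (fun x => rep H x = z)) := by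
      apply Finset.card_eq_sum_card_fiberwise
      intro x hx
      exact Finset.mem_coe.2 (Finset.mem_image_of_mem _ hx)
    have h2 : ∀ z ∈ A.image (rep H), s ≤ K * #(A.filter (fun x => rep H x = z)) := by
      intro z hz
      rw [mem_image] at hz
      obtain ⟨x, hx, rfl⟩ := hz
      refine le_trans hs (le_trans (card_le H K hK x) (Nat.mul_le_mul_left _ ?_))
      apply Finset.card_le_card
      intro y hy
      rw [mem_filter]
      exact ⟨hsub x hx hy, rep_eq H y x (orb_eq H x y hy)⟩
    have h3 : ∑ _z ∈ A.image (rep H), s ≤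
        ∑ z ∈ A.image (rep H), K * #(A.filter (fun x => rep H x = z)) :=
      Finset.sum_le_sum h2
    rw [Finset.sum_const, smul_eq_mul, ← Finset.mul_sum, ← h1, hcard] at h3
    exact h3
  · intro A hA B hB hAB
    simp only [Finset.coe_filter, Set.mem_ofPred_eq, mem_powersetCard] at hA hB
    have key : ∀ C D : Finset (Fin n), (∀ γ ∈ H, mv γ D = D) →
        C.image (rep H) = D.image (rep H) → C ⊆ D := by
      intro C D hD hCD x hx
      have h1 : rep H x ∈ D.image (rep H) := by
        rw [← hCD]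
        exact mem_image_of_mem _ hx
      rw [mem_image] at h1
      obtain ⟨y, hy, hyx⟩ := h1
      have h2 : orb H (rep H x) = orb H x := orb_eq H x _ (rep_mem H x)
      have h3 : orb H (rep H y) = orb H y := orb_eq H y _ (rep_mem H y)
      have h4 : x ∈ orb H y := by
        rw [← h3, hyx, h2]
        exact self_mem_orb H x
      obtain ⟨g, hg, rfl⟩ := (mem_orb H y x).1 h4
      have := hD g hg
      rw [← this]
      simp [hy]
    exact Finset.Subset.antisymm (key A B hB.2 hAB) (key B A hA.2 hAB.symm)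

end Pool.Agent.Helper69.NF
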